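import Pool.Agent.X69.KG.Ind

/-!
# Infinitely many small values of linear forms, almost everywhere
-/

set_option autoImplicit false

namespace Pool.Agent.X69.KG

open MeasureTheory Filter Topology Finset

variable {d : ℕ}

/-- the event -/
def Ev (a : Fin d → ℤ) (ψ : ℝ) : Set (UnitAddTorus (Fin d)) := {x | ‖L a x‖ ≤ ψ}

theorem Ev_meas (a : Fin d → ℤ) (ψ : ℝ) : MeasurableSet (Ev a ψ) :=
  (isClosed_le ((L_cont a).norm) continuous_const).measurableSet

theorem ball_real (ψ : ℝ) (h0 : 0 ≤ ψ) :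
    (volume : Measure UnitAddCircle).real (Metric.closedBall 0 ψ) = min 1 (2 * ψ) := by
  unfold Measure.real
  rw [AddCircle.volume_closedBall, ENNReal.toReal_ofReal (by positivity)]

theorem Ev_inter (a b : Fin d → ℤ) (i j : Fin d) (h : a i * b j ≠ a j * b i) (ψ φ : ℝ) :
    volume.real (Ev a ψ ∩ Ev b φ) =
      (volume : Measure UnitAddCircle).real (Metric.closedBall 0 ψ) *
        (volume : Measure UnitAddCircle).real (Metric.closedBall 0 φ) := by
  have h1 : Ev a ψ ∩ Ev b φ = ((L a).prod (L b)) ⁻¹' (Metric.closedBall 0 ψ ×ˢ Metric.closedBall 0 φ) := by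
    ext x
    unfold Ev
    simp only [Set.mem_inter_iff, Set.mem_ofPred_eq, Set.mem_preimage, AddMonoidHom.prod_apply, Set.mem_prod,
      mem_closedBall_zero_iff]
  rw [h1]
  unfold Measure.real
  rw [(pair_mp a b i j h).measure_preimage
    ((measurableSet_closedBall.prod measurableSet_closedBall).nullMeasurableSet), Measure.prod_prod,
    ENNReal.toReal_mul]

theorem Ev_real (a b : Fin d → ℤ) (i j : Fin d) (h : a i * b j ≠ a j * b i) (ψ : ℝ) :
    volume.real (Ev a ψ) = (volume : Measure UnitAddCircle).real (Metric.closedBall 0 ψ) := by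
  have h1 : Ev a ψ = ((L a).prod (L b)) ⁻¹' (Metric.closedBall 0 ψ ×ˢ Set.univ) := by
    ext x
    unfold Ev
    simp only [Set.mem_ofPred_eq, Set.mem_preimage, AddMonoidHom.prod_apply, Set.mem_prod,
      mem_closedBall_zero_iff, Set.mem_univ, and_true]
  rw [h1]
  unfold Measure.real
  rw [(pair_mp a b i j h).measure_preimage
    ((measurableSet_closedBall.prod MeasurableSet.univ).nullMeasurableSet), Measure.prod_prod,
    measure_univ, mul_one]

/-- the vectors -/
def vec {n : ℕ} (t : (_ : ℕ) × (ℕ × (Fin n → ℕ))) : Fin (n + 2) → ℤ :=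
  Fin.cons (t.1 : ℤ) (Fin.cons (t.2.1 : ℤ) (fun i => (t.2.2 i : ℤ)))

theorem vec_det {n : ℕ} (t u : (_ : ℕ) × (ℕ × (Fin n → ℕ))) (ht : 0 < t.1) (hu : 0 < u.1)
    (htc : Nat.Coprime t.1 t.2.1) (huc : Nat.Coprime u.1 u.2.1) (htu : t ≠ u) :
    ∃ i j : Fin (n + 2), vec t i * vec u j ≠ vec t j * vec u i := by
  by_contra hcon
  push Not at hcon
  apply htu
  obtain ⟨r, b, c⟩ := t
  obtain ⟨r', b', c'⟩ := u
  simp only at ht hu htc huc
  have h1 : r * b' = b * r' := by
    have := hcon 0 (Fin.succ 0)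
    simp only [vec, Fin.cons_zero, Fin.cons_succ] at this
    exact_mod_cast this
  have h2 : r ∣ r' := htc.dvd_of_dvd_mul_left (by rw [← h1]; exact dvd_mul_right _ _)
  have h3 : r' ∣ r := huc.dvd_of_dvd_mul_right (by rw [h1]; exact dvd_mul_left _ _)
  have h4 : r = r' := Nat.dvd_antisymm h2 h3
  subst h4
  have h5 : b' = b := by
    rw [mul_comm b r] at h1
    exact Nat.eq_of_mul_eq_mul_left ht h1
  subst h5
  have h6 : c = c' := by
    funext l
    have := hcon 0 (Fin.succ (Fin.succ l))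
    simp only [vec, Fin.cons_zero, Fin.cons_succ] at this
    have h7 : r * c' l = c l * r := by exact_mod_cast this
    rw [mul_comm (c l) r] at h7
    exact (Nat.eq_of_mul_eq_mul_left ht h7).symm
  subst h6
  rfl

/-- the index set -/
def idx (n K M : ℕ) : Finset ((_ : ℕ) × (ℕ × (Fin n → ℕ))) :=
  (Ico K M).sigma (fun r => ((range r).filter (fun b => Nat.Coprime r b)) ×ˢ
    Fintype.piFinset (fun _ : Fin n => range r))

theorem mem_idx {n K M : ℕ} (t : (_ : ℕ) × (ℕ × (Fin n → ℕ))) : t ∈ idx n K M ↔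
    (K ≤ t.1 ∧ t.1 < M) ∧ (t.2.1 < t.1 ∧ Nat.Coprime t.1 t.2.1) ∧ ∀ i, t.2.2 i < t.1 := by
  unfold idx
  rw [mem_sigma, mem_Ico, mem_product, mem_filter, mem_range, Fintype.mem_piFinset]
  simp only [mem_range]

/-- the sizes -/
noncomputable def psi (η : ℝ) (n r : ℕ) : ℝ := η / ((r : ℝ) ^ (n + 2) * Real.log (r + 1))

theorem log2_pos (r : ℕ) (hr : 1 ≤ r) : Real.log 2 ≤ Real.log (r + 1) := by
  apply Real.log_le_log (by norm_num)
  have : (1 : ℝ) ≤ r := by exact_mod_cast hr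
  linarith

theorem psi_pos (η : ℝ) (hη : 0 < η) (n r : ℕ) (hr : 1 ≤ r) : 0 < psi η n r := by
  unfold psi
  have h1 := log2_pos r hr
  have h2 : 0 < Real.log 2 := Real.log_pos (by norm_num)
  have h3 : 0 < Real.log (r + 1) := by linarith
  have h4 : (0 : ℝ) < r := by exact_mod_cast (by omega : 0 < r)
  positivity

theorem psi_le (η : ℝ) (hη : 0 < η) (hη1 : η ≤ 1 / 4) (n r : ℕ) (hr : 1 ≤ r) : 2 * psi η n r ≤ 1 := by
  unfold psi
  have h1 := log2_pos r hr
  have h2 : 0.5 < Real.log 2 := by have := Real.log_two_gt_d9; linarith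
  have h3 : 0.5 < Real.log (r + 1) := by linarith
  have h4 : (1 : ℝ) ≤ r := by exact_mod_cast hr
  have h5 : (1 : ℝ) ≤ (r : ℝ) ^ (n + 2) := one_le_pow₀ h4
  have h6 : 0.5 ≤ (r : ℝ) ^ (n + 2) * Real.log (r + 1) := by nlinarith
  rw [← mul_div_assoc, div_le_one (by linarith)]
  linarith

theorem sum_idx (η : ℝ) (hη : 0 < η) (hη1 : η ≤ 1 / 4) (n K M : ℕ) (hK : 1 ≤ K) :
    ∑ t ∈ idx n K M, volume.real (Ev (vec t) (psi η n t.1)) =
      2 * η * ∑ r ∈ Ico K M, (Nat.totient r : ℝ) / ((r : ℝ) ^ 2 * Real.log (r + 1)) := by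
  unfold idx
  rw [sum_sigma, mul_sum]
  apply sum_congr rfl
  intro r hr
  rw [mem_Ico] at hr
  have hr1 : 1 ≤ r := by omega
  have h1 : ∀ x ∈ ((range r).filter (fun b => Nat.Coprime r b)) ×ˢ Fintype.piFinset (fun _ : Fin n => range r),
      volume.real (Ev (vec (⟨r, x⟩ : (_ : ℕ) × (ℕ × (Fin n → ℕ)))) (psi η n r)) = 2 * psi η n r := by
    intro x _
    rw [Ev_real (vec (⟨r, x⟩ : (_ : ℕ) × (ℕ × (Fin n → ℕ)))) (Pi.single (Fin.succ 0) 1) 0 (Fin.succ 0),
      ball_real _ (psi_pos η hη n r hr1).le, min_eq_right (psi_le η hη hη1 n r hr1)]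
    rw [Pi.single_eq_same, Pi.single_eq_of_ne (Fin.succ_ne_zero _).symm, mul_zero, mul_one]
    show (r : ℤ) ≠ 0
    exact_mod_cast (by omega : r ≠ 0)
  rw [sum_congr rfl h1, sum_const, card_product, Fintype.card_piFinset]
  simp only [card_range, prod_const, card_univ, Fintype.card_fin, nsmul_eq_mul]
  have h2 : ((range r).filter (fun b => Nat.Coprime r b)).card = Nat.totient r := rfl
  rw [h2]
  unfold psi
  have h3 : (r : ℝ) ≠ 0 := by exact_mod_cast (by omega : r ≠ 0)
  have h4 : Real.log (r + 1) ≠ 0 := by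
    have h1 := log2_pos r hr1
    have h2 : 0 < Real.log 2 := Real.log_pos (by norm_num)
    linarith
  push_cast
  rw [pow_add]
  field_simp

/-- divergence -/
theorem div_sum : Tendsto (fun M : ℕ => ∑ r ∈ Ico 1 M, (Nat.totient r : ℝ) / ((r : ℝ) ^ 2 * Real.log (r + 1)))
    atTop atTop := by
  have hnn : ∀ r : ℕ, 0 ≤ (Nat.totient r : ℝ) / ((r : ℝ) ^ 2 * Real.log (r + 1)) := by
    intro r
    have : 0 ≤ Real.log ((r : ℝ) + 1) := Real.log_nonneg (by have : (0 : ℝ) ≤ r := Nat.cast_nonneg _; linarith)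
    positivity
  have hblock : ∀ k : ℕ, 1 / (4 * Real.log 4) * (1 / ((k : ℝ) + 1)) ≤
      ∑ r ∈ Ico (4 ^ k) (4 ^ (k + 1)), (Nat.totient r : ℝ) / ((r : ℝ) ^ 2 * Real.log (r + 1)) := by
    intro k
    have h4 : 0 < Real.log 4 := Real.log_pos (by norm_num)
    have hp : 1 ≤ 4 ^ k := Nat.one_le_pow _ _ (by norm_num)
    have hp1 : 4 ^ k ≤ 4 ^ (k + 1) := Nat.pow_le_pow_right (by norm_num) (by omega)
    have h1 := Pool.Agent.Helper74.KV.sum_phi (4 ^ (k + 1) - 1)
    have e1 : 4 ^ (k + 1) - 1 + 1 = 4 ^ (k + 1) := by omega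
    rw [e1] at h1
    rw [← sum_Ico_consecutive _ hp hp1] at h1
    have h2 : ∑ r ∈ Ico 1 (4 ^ k), (Nat.totient r : ℝ) / r ≤ (4 : ℝ) ^ k - 1 := by
      have h3 : ∑ r ∈ Ico 1 (4 ^ k), (Nat.totient r : ℝ) / r ≤ ∑ r ∈ Ico 1 (4 ^ k), (1 : ℝ) := by
        apply sum_le_sum
        intro r hr
        rw [mem_Ico] at hr
        rw [div_le_one (by exact_mod_cast (by omega : 0 < r))]
        exact_mod_cast Nat.totient_le r
      refine h3.trans (le_of_eq ?_)
      rw [sum_const, Nat.card_Ico, nsmul_eq_mul, mul_one, Nat.cast_sub hp]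
      push_cast
      ring
    have h3 : (4 : ℝ) ^ k ≤ ∑ r ∈ Ico (4 ^ k) (4 ^ (k + 1)), (Nat.totient r : ℝ) / r := by
      have e2 : ((4 ^ (k + 1) - 1 : ℕ) : ℝ) = 4 * (4 : ℝ) ^ k - 1 := by
        rw [Nat.cast_sub (by omega)]
        push_cast
        ring
      rw [e2] at h1
      have e3 : (1 : ℝ) ≤ (4 : ℝ) ^ k := one_le_pow₀ (by norm_num)
      linarith
    have h5 : ∀ r ∈ Ico (4 ^ k) (4 ^ (k + 1)), (Nat.totient r : ℝ) / r * (1 / (4 ^ (k + 1) * ((k + 1) * Real.log 4))) ≤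
        (Nat.totient r : ℝ) / ((r : ℝ) ^ 2 * Real.log (r + 1)) := by
      intro r hr
      rw [mem_Ico] at hr
      have hr0 : (0 : ℝ) < r := by exact_mod_cast (by omega : 0 < r)
      have hr4 : (r : ℝ) + 1 ≤ 4 ^ (k + 1) := by exact_mod_cast (by omega : r + 1 ≤ 4 ^ (k + 1))
      have hlog : Real.log (r + 1) ≤ (k + 1) * Real.log 4 := by
        have := Real.log_le_log (by linarith) hr4
        rw [Real.log_pow] at this
        push_cast at this
        exact this
      have hl0 : 0 < Real.log (r + 1) := by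
        have h1 := log2_pos r (by omega)
        have h2 : 0 < Real.log 2 := Real.log_pos (by norm_num)
        linarith
      have e4 : (Nat.totient r : ℝ) / ((r : ℝ) ^ 2 * Real.log (r + 1)) =
          (Nat.totient r : ℝ) / r * (1 / (r * Real.log (r + 1))) := by
        field_simp
      rw [e4]
      apply mul_le_mul_of_nonneg_left _ (by positivity)
      apply one_div_le_one_div_of_le (by positivity)
      exact mul_le_mul (by linarith) hlog hl0.le (by positivity)
    refine le_trans ?_ (sum_le_sum h5)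
    rw [← sum_mul]
    have h6 := mul_le_mul_of_nonneg_right h3
      (by positivity : (0 : ℝ) ≤ 1 / (4 ^ (k + 1) * ((k + 1) * Real.log 4)))
    refine le_trans (le_of_eq ?_) h6
    rw [pow_succ]
    field_simp
  have hsum : ∀ n : ℕ, 1 / (4 * Real.log 4) * ∑ k ∈ range n, (1 / ((k : ℝ) + 1)) ≤
      ∑ r ∈ Ico 1 (4 ^ n), (Nat.totient r : ℝ) / ((r : ℝ) ^ 2 * Real.log (r + 1)) := by
    intro n
    induction n with
    | zero => simp
    | succ n ih =>
      rw [sum_range_succ, mul_add, ← sum_Ico_consecutive _ (Nat.one_le_pow _ _ (by norm_num) : 1 ≤ 4 ^ n)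
        (Nat.pow_le_pow_right (by norm_num) (by omega) : 4 ^ n ≤ 4 ^ (n + 1))]
      exact add_le_add ih (hblock n)
  have hmono : Monotone (fun M : ℕ => ∑ r ∈ Ico 1 M, (Nat.totient r : ℝ) / ((r : ℝ) ^ 2 * Real.log (r + 1))) := by
    intro M M' h
    exact sum_le_sum_of_subset_of_nonneg (Ico_subset_Ico_right h) (fun r _ _ => hnn r)
  apply tendsto_atTop_atTop_of_monotone hmono
  intro B
  have h1 := Real.tendsto_sum_range_one_div_nat_succ_atTop
  have h4 : 0 < Real.log 4 := Real.log_pos (by norm_num)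
  obtain ⟨n, hn⟩ := (h1.eventually (eventually_ge_atTop (B * (4 * Real.log 4)))).exists
  refine ⟨4 ^ n, le_trans ?_ (hsum n)⟩
  have h5 := mul_le_mul_of_nonneg_left hn (by positivity : 0 ≤ 1 / (4 * Real.log 4))
  refine le_trans (le_of_eq ?_) h5
  field_simp

/-- almost every point of the torus -/
theorem ae_torus (n : ℕ) (η : ℝ) (hη : 0 < η) (hη1 : η ≤ 1 / 4) : ∀ᵐ x : UnitAddTorus (Fin (n + 2)), ∀ K : ℕ,
    ∃ t : (_ : ℕ) × (ℕ × (Fin n → ℕ)), K ≤ t.1 ∧ (t.2.1 < t.1 ∧ Nat.Coprime t.1 t.2.1) ∧ (∀ i, t.2.2 i < t.1) ∧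
      ‖L (vec t) x‖ ≤ psi η n t.1 := by
  classical
  rw [ae_all_iff]
  intro K
  set K' := K + 1 with hK'
  have hgoal : ∀ᵐ x : UnitAddTorus (Fin (n + 2)), ¬ ∀ M : ℕ, x ∈ ⋂ t ∈ idx n K' M, (Ev (vec t) (psi η n t.1))ᶜ := by
    rw [ae_iff]
    simp only [not_not]
    set Z : Set (UnitAddTorus (Fin (n + 2))) := {x | ∀ M : ℕ, x ∈ ⋂ t ∈ idx n K' M, (Ev (vec t) (psi η n t.1))ᶜ} with hZ
    have h1 : ∀ M : ℕ, (∑ t ∈ idx n K' M, volume.real (Ev (vec t) (psi η n t.1))) * volume.real Z ≤ 1 := by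
      intro M
      refine le_trans ?_ (none_le volume (idx n K' M) (fun t => Ev (vec t) (psi η n t.1))
        (fun t => Ev_meas _ _) ?_)
      · apply mul_le_mul_of_nonneg_left _ (sum_nonneg (fun _ _ => measureReal_nonneg))
        apply measureReal_mono _ (measure_ne_top _ _)
        intro x hx
        exact hx M
      · intro t ht u hu htu
        have ht' := (mem_idx t).1 ht
        have hu' := (mem_idx u).1 hu
        obtain ⟨i, j, hij⟩ := vec_det t u (by omega) (by omega) ht'.2.1.2 hu'.2.1.2 htu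
        rw [Ev_inter _ _ i j hij, Ev_real _ _ i j hij, Ev_real (vec u) (vec t) i j (fun h => hij (by linarith))]
    have h2 : volume.real Z = 0 := by
      by_contra hne
      have hpos : 0 < volume.real Z := lt_of_le_of_ne measureReal_nonneg (Ne.symm hne)
      obtain ⟨M, hM, hMK⟩ := ((div_sum.eventually (eventually_ge_atTop
        ((∑ r ∈ Ico 1 K', (Nat.totient r : ℝ) / ((r : ℝ) ^ 2 * Real.log (r + 1))) +
          (2 / volume.real Z) / (2 * η)))).and (eventually_ge_atTop K')).exists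
      have h3 := h1 M
      rw [sum_idx η hη hη1 n K' M (by omega)] at h3
      rw [← sum_Ico_consecutive _ (by omega : 1 ≤ K') hMK] at hM
      have h4 : (2 / volume.real Z) / (2 * η) ≤
          ∑ r ∈ Ico K' M, (Nat.totient r : ℝ) / ((r : ℝ) ^ 2 * Real.log (r + 1)) := by linarith
      have h5 : 2 / volume.real Z ≤ 2 * η *
          ∑ r ∈ Ico K' M, (Nat.totient r : ℝ) / ((r : ℝ) ^ 2 * Real.log (r + 1)) := by
        rw [div_le_iff₀ (by positivity)] at h4
        linarith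
      have h6 := mul_le_mul_of_nonneg_right h5 hpos.le
      rw [div_mul_cancel₀ _ hpos.ne'] at h6
      linarith
    rw [measureReal_eq_zero_iff] at h2
    exact h2
  filter_upwards [hgoal] with x hx
  by_contra hcon
  apply hx
  intro M
  rw [Set.mem_iInter₂]
  intro t ht
  have ht' := (mem_idx t).1 ht
  intro hE
  exact hcon ⟨t, by omega, ht'.2.1, ht'.2.2, hE⟩

end Pool.Agent.X69.KG
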