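import Mathlib

/-!
# Points near a family of parallel hyperplanes have many close pairs
-/

set_option autoImplicit false

namespace Pool.Agent.X69.KG

open Finset

/-- the fibres of a linear form modulo `G` -/
theorem fiber_card {n G : ℕ} [NeZero G] (a : Fin (n + 2) → ℤ) (u v : ℤ) (huv : u * a 0 + v * a (Fin.succ 0) = 1)
    (J : Finset (ZMod G)) :
    ((univ : Finset (Fin (n + 2) → ZMod G)).filter (fun β => (∑ i, (a i : ZMod G) * β i) ∈ J)).card =
      G ^ (n + 1) * J.card := by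
  classical
  obtain ⟨f, hf⟩ : ∃ f : (Fin (n + 2) → ZMod G) →+ ZMod G, ∀ β, f β = ∑ i, (a i : ZMod G) * β i :=
    ⟨{ toFun := fun β => ∑ i, (a i : ZMod G) * β i
       map_zero' := by simp
       map_add' := fun x y => by simp [mul_add, sum_add_distrib] }, fun β => rfl⟩
  have hsurj : ∀ w : ZMod G, w ∈ Set.range f := by
    intro w
    refine ⟨Pi.single 0 ((u : ZMod G) * w) + Pi.single (Fin.succ 0) ((v : ZMod G) * w), ?_⟩
    have h1 : ∀ (l : Fin (n + 2)) (y : ZMod G), f (Pi.single l y) = (a l : ZMod G) * y := by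
      intro l y
      rw [hf, sum_eq_single l]
      · rw [Pi.single_eq_same]
      · intro l' _ hl'
        rw [Pi.single_eq_of_ne hl', mul_zero]
      · intro hl
        exact absurd (mem_univ l) hl
    rw [map_add, h1, h1]
    have h2 : ((u * a 0 + v * a (Fin.succ 0) : ℤ) : ZMod G) = 1 := by rw [huv]; simp
    push_cast at h2
    calc (a 0 : ZMod G) * ((u : ZMod G) * w) + (a (Fin.succ 0) : ZMod G) * ((v : ZMod G) * w)
        = ((u : ZMod G) * a 0 + v * a (Fin.succ 0)) * w := by ring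
      _ = w := by rw [h2, one_mul]
  have hc : ∀ w : ZMod G, (univ.filter (fun β => f β = w)).card = (univ.filter (fun β => f β = 0)).card :=
    fun w => AddMonoidHom.card_fiber_eq_of_mem_range f (hsurj w) (hsurj 0)
  have htot : G ^ (n + 2) = G * (univ.filter (fun β => f β = 0)).card := by
    have h1 := card_eq_sum_card_fiberwise (s := (univ : Finset (Fin (n + 2) → ZMod G)))
      (t := (univ : Finset (ZMod G))) (f := f) (fun _ _ => mem_coe.2 (mem_univ _))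
    rw [sum_congr rfl (fun w _ => hc w), sum_const, card_univ, card_univ, ZMod.card, Fintype.card_fun,
      Fintype.card_fin, ZMod.card, smul_eq_mul] at h1
    exact h1
  have hG : 0 < G := Nat.pos_of_ne_zero (NeZero.ne G)
  have h0 : (univ.filter (fun β => f β = 0)).card = G ^ (n + 1) := by
    rw [pow_succ, mul_comm] at htot
    exact (Nat.eq_of_mul_eq_mul_left hG htot).symm
  have h2 := card_eq_sum_card_fiberwise (s := (univ : Finset (Fin (n + 2) → ZMod G)).filter (fun β => f β ∈ J))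
    (t := J) (f := f) (fun β hβ => by
      have := mem_coe.1 hβ
      exact mem_coe.2 (mem_filter.1 this).2)
  have h3 : ∀ w ∈ J, (((univ : Finset (Fin (n + 2) → ZMod G)).filter (fun β => f β ∈ J)).filter
      (fun β => f β = w)).card = G ^ (n + 1) := by
    intro w hw
    rw [← h0, ← hc w]
    congr 1
    ext β
    simp only [mem_filter, mem_univ, true_and]
    exact ⟨fun h => h.2, fun h => ⟨by rw [h]; exact hw, h⟩⟩
  rw [sum_congr rfl h3, sum_const, smul_eq_mul, mul_comm] at h2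
  simp only [hf] at h2
  exact h2

/-- counting pairs with the same image -/
theorem pairs_sq {β : Type*} [DecidableEq β] [Fintype β] (N : ℕ) (B : ℕ → β) (Bad : Finset β)
    (hB : ∀ j ∈ Icc 1 N, B j ∈ Bad) :
    N ^ 2 ≤ Bad.card * (((Icc 1 N) ×ˢ (Icc 1 N)).filter (fun p => p.1 ≠ p.2 ∧ B p.1 = B p.2)).card + Bad.card * N := by
  have h1 := card_eq_sum_card_fiberwise (s := Icc 1 N) (t := Bad) (f := B) (fun j hj => mem_coe.2 (hB j (mem_coe.1 hj)))
  rw [Nat.card_Icc, Nat.add_sub_cancel] at h1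
  have h2 : (∑ b ∈ Bad, ((Icc 1 N).filter (fun j => B j = b)).card) ^ 2 ≤
      Bad.card * ∑ b ∈ Bad, ((Icc 1 N).filter (fun j => B j = b)).card ^ 2 := sq_sum_le_card_mul_sum_sq
  rw [← h1] at h2
  refine h2.trans ?_
  rw [← mul_add]
  apply Nat.mul_le_mul_left
  have h3 : ∑ b ∈ Bad, ((Icc 1 N).filter (fun j => B j = b)).card ^ 2 =
      (((Icc 1 N) ×ˢ (Icc 1 N)).filter (fun p => B p.1 = B p.2)).card := by
    rw [card_eq_sum_card_fiberwise (t := Bad) (f := fun p : ℕ × ℕ => B p.1)]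
    · apply sum_congr rfl
      intro b _
      rw [sq, ← card_product]
      congr 1
      ext p
      simp only [mem_product, mem_filter]
      constructor
      · rintro ⟨⟨h1, h2⟩, h3, h4⟩
        exact ⟨⟨⟨h1, h3⟩, by rw [h2, h4]⟩, h2⟩
      · rintro ⟨⟨⟨h1, h3⟩, h4⟩, h2⟩
        exact ⟨⟨h1, h2⟩, h3, by rw [← h4, h2]⟩
    · intro p hp
      have h := (mem_filter.1 (mem_coe.1 hp)).1
      exact mem_coe.2 (hB _ (mem_product.1 h).1)
  rw [h3]
  have h4 : ((Icc 1 N) ×ˢ (Icc 1 N)).filter (fun p => B p.1 = B p.2) ⊆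
      (((Icc 1 N) ×ˢ (Icc 1 N)).filter (fun p => p.1 ≠ p.2 ∧ B p.1 = B p.2)) ∪
        (Icc 1 N).image (fun j => (j, j)) := by
    intro p hp
    obtain ⟨hp1, hp2⟩ := mem_filter.1 hp
    rw [mem_union, mem_filter, mem_image]
    by_cases h : p.1 = p.2
    · right
      exact ⟨p.1, (mem_product.1 hp1).1, Prod.ext rfl h⟩
    · left
      exact ⟨hp1, h, hp2⟩
  refine (card_le_card h4).trans ((card_union_le _ _).trans ?_)
  apply Nat.add_le_add_left
  refine card_image_le.trans ?_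
  rw [Nat.card_Icc, Nat.add_sub_cancel]

/-- **Many close pairs.** -/
theorem close_pairs {n G r : ℕ} (hG : 1 ≤ G) (a : Fin (n + 2) → ℤ) (ha0 : ∀ i, 0 ≤ a i) (har : ∀ i, a i ≤ r)
    (u v : ℤ) (huv : u * a 0 + v * a (Fin.succ 0) = 1) (N : ℕ) (x : ℕ → Fin (n + 2) → ℝ)
    (hx0 : ∀ j i, 0 ≤ x j i) (hx1 : ∀ j i, x j i < 1) (κ : ℝ)
    (hx : ∀ j ∈ Icc 1 N, ∃ z : ℤ, |∑ i, (a i : ℝ) * x j i - z| ≤ κ) :
    (N : ℝ) ^ 2 ≤ (G : ℝ) ^ (n + 1) * (2 * (κ * G + (n + 2) * r) + 1) *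
      ((({p : ℕ × ℕ | p.1 ∈ Set.Icc 1 N ∧ p.2 ∈ Set.Icc 1 N ∧ p.1 ≠ p.2 ∧ ‖x p.1 - x p.2‖ < 1 / G}.ncard : ℕ) : ℝ)
        + N) := by
  classical
  rcases Nat.eq_zero_or_pos N with hN0 | hN0
  · subst hN0
    have hG0 : (0 : ℝ) ≤ G := Nat.cast_nonneg _
    have hemp : {p : ℕ × ℕ | p.1 ∈ Set.Icc 1 0 ∧ p.2 ∈ Set.Icc 1 0 ∧ p.1 ≠ p.2 ∧ ‖x p.1 - x p.2‖ < 1 / G} = ∅ := by
      ext p
      simp
    rw [hemp]
    simp
  have hκ : 0 ≤ κ := by
    obtain ⟨z, hz⟩ := hx 1 (mem_Icc.2 ⟨le_rfl, hN0⟩)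
    exact (abs_nonneg _).trans hz
  have : NeZero G := ⟨by omega⟩
  have hGR : (0 : ℝ) < G := by exact_mod_cast hG
  set T : ℤ := ⌊κ * G + (n + 2) * r⌋ with hT
  have hT0 : 0 ≤ T := Int.floor_nonneg.2 (by positivity)
  set J : Finset (ZMod G) := (Icc (-T) T).image (fun w : ℤ => (w : ZMod G)) with hJ
  have hJc : (J.card : ℝ) ≤ 2 * (κ * G + (n + 2) * r) + 1 := by
    have h1 : J.card ≤ (Icc (-T) T).card := card_image_le
    rw [Int.card_Icc] at h1
    have h2 : ((T + 1 - -T).toNat : ℝ) = 2 * T + 1 := by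
      have : ((T + 1 - -T).toNat : ℤ) = 2 * T + 1 := by
        rw [Int.toNat_of_nonneg (by omega)]
        ring
      exact_mod_cast this
    have h3 : (J.card : ℝ) ≤ 2 * T + 1 := by
      rw [← h2]
      exact_mod_cast h1
    have h4 : (T : ℝ) ≤ κ * G + (n + 2) * r := Int.floor_le _
    linarith
  set B : ℕ → (Fin (n + 2) → ZMod G) := fun j i => ((⌊(G : ℝ) * x j i⌋₊ : ℕ) : ZMod G) with hB
  set Bad := (univ : Finset (Fin (n + 2) → ZMod G)).filter (fun β => (∑ i, (a i : ZMod G) * β i) ∈ J) with hBad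
  have hBadc : (Bad.card : ℝ) ≤ (G : ℝ) ^ (n + 1) * (2 * (κ * G + (n + 2) * r) + 1) := by
    rw [hBad, fiber_card a u v huv J]
    push_cast
    exact mul_le_mul_of_nonneg_left hJc (by positivity)
  have hmemB : ∀ j ∈ Icc 1 N, B j ∈ Bad := by
    intro j hj
    obtain ⟨z, hz⟩ := hx j hj
    rw [hBad, mem_filter]
    refine ⟨mem_univ _, ?_⟩
    rw [hJ, mem_image]
    set Mj : ℤ := ∑ i, a i * (⌊(G : ℝ) * x j i⌋₊ : ℤ) with hMj
    refine ⟨Mj - G * z, ?_, ?_⟩
    · have h1 : |(Mj : ℝ) - G * z| ≤ κ * G + (n + 2) * r := by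
        have h2 : |(Mj : ℝ) - G * ∑ i, (a i : ℝ) * x j i| ≤ (n + 2) * r := by
          have h3 : (Mj : ℝ) - G * ∑ i, (a i : ℝ) * x j i =
              ∑ i, (a i : ℝ) * ((⌊(G : ℝ) * x j i⌋₊ : ℝ) - G * x j i) := by
            rw [hMj, mul_sum]
            push_cast
            rw [← sum_sub_distrib]
            apply sum_congr rfl
            intro i _
            ring
          rw [h3]
          refine (abs_sum_le_sum_abs _ _).trans ?_
          have h4 : ∀ i ∈ (univ : Finset (Fin (n + 2))),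
              |(a i : ℝ) * ((⌊(G : ℝ) * x j i⌋₊ : ℝ) - G * x j i)| ≤ (r : ℝ) := by
            intro i _
            rw [abs_mul]
            have h5 : |(a i : ℝ)| ≤ r := by
              rw [abs_of_nonneg (by exact_mod_cast ha0 i)]
              exact_mod_cast har i
            have h6 : |((⌊(G : ℝ) * x j i⌋₊ : ℝ) - G * x j i)| ≤ 1 := by
              have h7 := Nat.floor_le (mul_nonneg hGR.le (hx0 j i))
              have h8 := Nat.lt_floor_add_one ((G : ℝ) * x j i)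
              rw [abs_le]
              constructor <;> linarith
            calc |(a i : ℝ)| * |((⌊(G : ℝ) * x j i⌋₊ : ℝ) - G * x j i)| ≤ r * 1 :=
                  mul_le_mul h5 h6 (abs_nonneg _) (Nat.cast_nonneg _)
              _ = r := mul_one _
          refine (sum_le_sum h4).trans (le_of_eq ?_)
          rw [sum_const, card_univ, Fintype.card_fin, nsmul_eq_mul]
          push_cast
          ring
        have h9 : |(G : ℝ) * ∑ i, (a i : ℝ) * x j i - G * z| ≤ κ * G := by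
          rw [← mul_sub, abs_mul, abs_of_pos hGR, mul_comm]
          exact mul_le_mul_of_nonneg_right hz hGR.le
        have h10 := abs_sub_le (Mj : ℝ) (G * ∑ i, (a i : ℝ) * x j i) (G * z)
        linarith
      have h11 : |Mj - G * z| ≤ T := by
        rw [hT]
        apply Int.le_floor.2
        push_cast
        exact h1
      rw [mem_Icc]
      rw [abs_le] at h11
      exact h11
    · rw [hMj]
      push_cast
      rw [ZMod.natCast_self, zero_mul, sub_zero]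
  have hmain := pairs_sq N B Bad hmemB
  have hfin : {p : ℕ × ℕ | p.1 ∈ Set.Icc 1 N ∧ p.2 ∈ Set.Icc 1 N ∧ p.1 ≠ p.2 ∧ ‖x p.1 - x p.2‖ < 1 / G}.Finite := by
    refine (((Icc 1 N) ×ˢ (Icc 1 N)).finite_toSet).subset ?_
    rintro p ⟨h1, h2, _⟩
    rw [mem_coe, mem_product, mem_Icc, mem_Icc]
    exact ⟨h1, h2⟩
  have hsub : (((Icc 1 N) ×ˢ (Icc 1 N)).filter (fun p => p.1 ≠ p.2 ∧ B p.1 = B p.2)).card ≤
      {p : ℕ × ℕ | p.1 ∈ Set.Icc 1 N ∧ p.2 ∈ Set.Icc 1 N ∧ p.1 ≠ p.2 ∧ ‖x p.1 - x p.2‖ < 1 / G}.ncard := by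
    rw [← Set.ncard_coe_finset]
    apply Set.ncard_le_ncard _ hfin
    intro p hp
    obtain ⟨hp1, hp2, hp3⟩ := mem_filter.1 (mem_coe.1 hp)
    rw [mem_product, mem_Icc, mem_Icc] at hp1
    refine ⟨hp1.1, hp1.2, hp2, ?_⟩
    rw [pi_norm_lt_iff (by positivity)]
    intro i
    have h1 : ((⌊(G : ℝ) * x p.1 i⌋₊ : ℕ) : ZMod G) = ((⌊(G : ℝ) * x p.2 i⌋₊ : ℕ) : ZMod G) := congrFun hp3 i
    have hlt : ∀ j, ⌊(G : ℝ) * x j i⌋₊ < G := by
      intro j
      rw [Nat.floor_lt (mul_nonneg hGR.le (hx0 j i))]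
      calc (G : ℝ) * x j i < G * 1 := mul_lt_mul_of_pos_left (hx1 j i) hGR
        _ = G := mul_one _
    have h2 : ⌊(G : ℝ) * x p.1 i⌋₊ = ⌊(G : ℝ) * x p.2 i⌋₊ := by
      have h3 := (ZMod.natCast_eq_natCast_iff' _ _ _).1 h1
      rwa [Nat.mod_eq_of_lt (hlt _), Nat.mod_eq_of_lt (hlt _)] at h3
    have h4 := Nat.floor_le (mul_nonneg hGR.le (hx0 p.1 i))
    have h5 := Nat.lt_floor_add_one ((G : ℝ) * x p.1 i)
    have h6 := Nat.floor_le (mul_nonneg hGR.le (hx0 p.2 i))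
    have h7 := Nat.lt_floor_add_one ((G : ℝ) * x p.2 i)
    rw [h2] at h4 h5
    rw [Pi.sub_apply, Real.norm_eq_abs, lt_div_iff₀ hGR, ← abs_of_pos hGR, ← abs_mul, abs_lt]
    constructor <;> nlinarith
  have hmainR : (N : ℝ) ^ 2 ≤ (Bad.card : ℝ) *
      ((({p : ℕ × ℕ | p.1 ∈ Set.Icc 1 N ∧ p.2 ∈ Set.Icc 1 N ∧ p.1 ≠ p.2 ∧ ‖x p.1 - x p.2‖ < 1 / G}.ncard : ℕ) : ℝ)
        + N) := by
    have h1 : ((N ^ 2 : ℕ) : ℝ) ≤ ((Bad.card * {p : ℕ × ℕ | p.1 ∈ Set.Icc 1 N ∧ p.2 ∈ Set.Icc 1 N ∧ p.1 ≠ p.2 ∧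
        ‖x p.1 - x p.2‖ < 1 / G}.ncard + Bad.card * N : ℕ) : ℝ) := by
      apply Nat.cast_le.2
      refine hmain.trans ?_
      apply Nat.add_le_add_right
      exact Nat.mul_le_mul_left _ hsub
    push_cast at h1
    linarith
  refine hmainR.trans ?_
  apply mul_le_mul_of_nonneg_right hBadc
  positivity

end Pool.Agent.X69.KG
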