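import Pool.Agent.X69.KG.Tr
import Pool.Agent.X69.KG.Box

/-!
# Many close pairs for almost every point
-/

set_option autoImplicit false

namespace Pool.Agent.X69.KG

open MeasureTheory Filter Topology Finset

theorem vec_nonneg {n : ℕ} (t : (_ : ℕ) × (ℕ × (Fin n → ℕ))) (i : Fin (n + 2)) : 0 ≤ vec t i := by
  refine Fin.cases ?_ (fun i => ?_) i
  · exact Int.natCast_nonneg _
  · refine Fin.cases ?_ (fun i => ?_) i
    · exact Int.natCast_nonneg _
    · exact Int.natCast_nonneg _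

theorem vec_le {n : ℕ} (t : (_ : ℕ) × (ℕ × (Fin n → ℕ))) (h1 : t.2.1 < t.1) (h2 : ∀ i, t.2.2 i < t.1)
    (i : Fin (n + 2)) : vec t i ≤ (t.1 : ℤ) := by
  refine Fin.cases ?_ (fun i => ?_) i
  · exact le_rfl
  · refine Fin.cases ?_ (fun i => ?_) i
    · show (t.2.1 : ℤ) ≤ t.1
      exact_mod_cast h1.le
    · show (t.2.2 i : ℤ) ≤ t.1
      exact_mod_cast (h2 i).le

theorem many {n : ℕ} (α : Fin (n + 2) → ℝ) (hα : ∀ m : ℕ, ∀ K : ℕ,
    ∃ t : (_ : ℕ) × (ℕ × (Fin n → ℕ)), K ≤ t.1 ∧ (t.2.1 < t.1 ∧ Nat.Coprime t.1 t.2.1) ∧ (∀ i, t.2.2 i < t.1) ∧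
      ∃ z : ℤ, |∑ i, (vec t i : ℝ) * α i - z| ≤ psi (1 / (m + 4)) n t.1)
    (a : ℕ → ℤ) (A : ℝ) (hA : 0 < A) (ha : ∀ j : ℕ, 1 ≤ j → |(a j : ℝ)| ≤ A * (1 + j * Real.log j))
    (s : ℝ) (hs : 0 < s) (K : ℝ) (N₀ : ℕ) : ∃ N : ℕ, N₀ ≤ N ∧ K * N ≤
      ((({p : ℕ × ℕ | p.1 ∈ Set.Icc 1 N ∧ p.2 ∈ Set.Icc 1 N ∧ p.1 ≠ p.2 ∧
        ‖(fun i => Int.fract ((a p.1 : ℝ) * α i)) - (fun i => Int.fract ((a p.2 : ℝ) * α i))‖ <
          s / (N : ℝ) ^ (1 / ((n + 2 : ℕ) : ℝ))}.ncard : ℕ) : ℝ)) := by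
  classical
  set c : ℝ := (s / 2) ^ (n + 1) / (4 / s + 3 * (n + 2)) with hc
  have hc0 : 0 < c := by positivity
  obtain ⟨m, hm⟩ := exists_nat_ge (max 1 ((K + 1) / c))
  have hm1 : 1 ≤ m := by exact_mod_cast (le_max_left _ _).trans hm
  have hmK : K + 1 ≤ c * m := by
    have := (le_max_right _ _).trans hm
    rw [div_le_iff₀ hc0] at this
    linarith
  have hmR : (1 : ℝ) ≤ m := by exact_mod_cast hm1
  set H : ℝ := 4 * (n + 2) * A * (m : ℝ) ^ (n + 2) * m with hH
  have hH0 : 0 < H := by positivity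
  obtain ⟨l, hl⟩ := exists_nat_ge H
  set R₀ : ℕ := max (max m N₀) (max 3 ⌈s⌉₊) with hR₀
  obtain ⟨t, ht1, ht2, ht3, z, hz⟩ := hα l R₀
  set r := t.1 with hr
  have hrm : m ≤ r := ((le_max_left _ _).trans (le_max_left _ _)).trans ht1
  have hrN : N₀ ≤ r := ((le_max_right _ _).trans (le_max_left _ _)).trans ht1
  have hr3 : 3 ≤ r := ((le_max_left _ _).trans (le_max_right _ _)).trans ht1
  have hrs : s ≤ r := (Nat.le_ceil s).trans (by exact_mod_cast ((le_max_right _ _).trans (le_max_right _ _)).trans ht1)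
  have hrR : (3 : ℝ) ≤ r := by exact_mod_cast hr3
  have hr0 : (0 : ℝ) < r := by linarith
  set N : ℕ := (m * r) ^ (n + 2) with hN
  have hmr : 1 ≤ m * r := Nat.mul_pos hm1 (by omega)
  have hrmr : r ≤ m * r := Nat.le_mul_of_pos_left _ hm1
  have hNr : r ≤ N := by
    calc r ≤ m * r := hrmr
      _ = (m * r) ^ 1 := (pow_one _).symm
      _ ≤ (m * r) ^ (n + 2) := Nat.pow_le_pow_right hmr (by omega)
  refine ⟨N, hrN.trans hNr, ?_⟩
  have hN3 : (3 : ℝ) ≤ N := by exact_mod_cast hr3.trans hNr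
  have hN0 : (0 : ℝ) < N := by linarith
  have hlog3 : 1 ≤ Real.log N := by
    rw [Real.le_log_iff_exp_le hN0]
    have := Real.exp_one_lt_d9
    linarith
  have hNR : (N : ℝ) = ((m : ℝ) * r) ^ (n + 2) := by rw [hN]; push_cast; ring
  have hlogr : 0 < Real.log r := Real.log_pos (by linarith)
  have hlogr1 : Real.log r ≤ Real.log (r + 1) := Real.log_le_log hr0 (by linarith)
  have hlogN : Real.log N ≤ 2 * (n + 2) * Real.log (r + 1) := by
    rw [hNR, Real.log_pow, Real.log_mul (by positivity) hr0.ne']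
    have h1 : Real.log m ≤ Real.log r := Real.log_le_log (by linarith) (by exact_mod_cast hrm)
    have h2 : ((n + 2 : ℕ) : ℝ) * (Real.log m + Real.log r) ≤ ((n + 2 : ℕ) : ℝ) * (2 * Real.log (r + 1)) := by
      apply mul_le_mul_of_nonneg_left _ (by positivity)
      linarith
    refine h2.trans (le_of_eq ?_)
    push_cast
    ring
  -- the values are small
  have hsmall : ∀ j ∈ Icc 1 N, |(a j : ℝ)| * psi (1 / (l + 4)) n r ≤ 1 / m := by
    intro j hj
    rw [mem_Icc] at hj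
    have hj1 : (1 : ℝ) ≤ j := by exact_mod_cast hj.1
    have hjN : (j : ℝ) ≤ N := by exact_mod_cast hj.2
    have h1 : (j : ℝ) * Real.log j ≤ N * Real.log N :=
      mul_le_mul hjN (Real.log_le_log (by linarith) hjN) (Real.log_nonneg hj1) hN0.le
    have h2 : |(a j : ℝ)| ≤ A * (2 * (N * Real.log N)) := by
      refine (ha j hj.1).trans ?_
      apply mul_le_mul_of_nonneg_left _ hA.le
      nlinarith
    have h3 : |(a j : ℝ)| ≤ A * (2 * (N * (2 * (n + 2) * Real.log (r + 1)))) := by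
      refine h2.trans ?_
      apply mul_le_mul_of_nonneg_left _ hA.le
      apply mul_le_mul_of_nonneg_left _ (by norm_num)
      exact mul_le_mul_of_nonneg_left hlogN hN0.le
    have hpsi := (psi_pos (1 / ((l : ℝ) + 4)) (by positivity) n r (by omega)).le
    refine (mul_le_mul_of_nonneg_right h3 hpsi).trans ?_
    have hlr1 : 0 < Real.log (r + 1) := by linarith
    have e1 : A * (2 * (N * (2 * (n + 2) * Real.log (r + 1)))) * psi (1 / ((l : ℝ) + 4)) n r =
        4 * (n + 2) * A * (m : ℝ) ^ (n + 2) / (l + 4) := by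
      unfold psi
      rw [hNR, mul_pow]
      field_simp
      ring
    rw [e1, div_le_div_iff₀ (by positivity) (by linarith), one_mul]
    linarith
  -- the boxes
  set y : ℝ := m * r / s with hy
  have hy1 : 1 ≤ y := by
    rw [hy, le_div_iff₀ hs, one_mul]
    nlinarith
  set G : ℕ := ⌈y⌉₊ with hG
  have hGy : y ≤ G := Nat.le_ceil y
  have hG2 : (G : ℝ) ≤ 2 * y := by
    have := Nat.ceil_lt_add_one (by linarith : 0 ≤ y)
    linarith
  have hG1 : 1 ≤ G := by
    have : (1 : ℝ) ≤ G := hy1.trans hGy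
    exact_mod_cast this
  have hG0 : (0 : ℝ) < G := by linarith
  obtain ⟨u, v, huv⟩ := Nat.isCoprime_iff_coprime.2 ht2.2
  have hclose := close_pairs (n := n) (G := G) (r := r) hG1 (vec t) (vec_nonneg t) (vec_le t ht2.1 ht3) u v huv N
    (fun j i => Int.fract ((a j : ℝ) * α i)) (fun j i => Int.fract_nonneg _) (fun j i => Int.fract_lt_one _) (1 / m)
    (fun j hj => by
      refine ⟨a j * z - ∑ i, vec t i * ⌊(a j : ℝ) * α i⌋, ?_⟩
      have e1 : ∑ i, (vec t i : ℝ) * Int.fract ((a j : ℝ) * α i) -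
          ((a j * z - ∑ i, vec t i * ⌊(a j : ℝ) * α i⌋ : ℤ) : ℝ) =
          (a j : ℝ) * (∑ i, (vec t i : ℝ) * α i - z) := by
        push_cast
        rw [mul_sub, mul_sum]
        have e2 : ∑ i, (vec t i : ℝ) * Int.fract ((a j : ℝ) * α i) =
            ∑ i, (a j : ℝ) * ((vec t i : ℝ) * α i) - ∑ i, (vec t i : ℝ) * (⌊(a j : ℝ) * α i⌋ : ℝ) := by
          rw [← sum_sub_distrib]
          apply sum_congr rfl
          intro i _
          unfold Int.fract
          ring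
        rw [e2]
        ring
      rw [e1, abs_mul]
      exact (mul_le_mul_of_nonneg_left hz (abs_nonneg _)).trans (hsmall j hj))
  set P : ℝ := ((({p : ℕ × ℕ | p.1 ∈ Set.Icc 1 N ∧ p.2 ∈ Set.Icc 1 N ∧ p.1 ≠ p.2 ∧
    ‖(fun i => Int.fract ((a p.1 : ℝ) * α i)) - (fun i => Int.fract ((a p.2 : ℝ) * α i))‖ < 1 / G}.ncard : ℕ) : ℝ))
    with hP
  have hP0 : 0 ≤ P := Nat.cast_nonneg _
  set W : ℝ := (2 * y) ^ (n + 1) * (r * (4 / s + 3 * (n + 2))) with hW
  have hW0 : 0 < W := by positivity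
  have hfac : (G : ℝ) ^ (n + 1) * (2 * (1 / m * G + (n + 2) * r) + 1) ≤ W := by
    rw [hW]
    apply mul_le_mul (pow_le_pow_left₀ hG0.le hG2 _) _ (by positivity) (by positivity)
    have h1 : 1 / (m : ℝ) * G ≤ 2 * r / s := by
      calc 1 / (m : ℝ) * G ≤ 1 / m * (2 * y) := mul_le_mul_of_nonneg_left hG2 (by positivity)
        _ = 2 * r / s := by rw [hy]; field_simp
    have h2 : (1 : ℝ) ≤ (n + 2) * r := by
      have : (0 : ℝ) ≤ n := Nat.cast_nonneg _
      nlinarith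
    have e3 : (r : ℝ) * (4 / s + 3 * (n + 2)) = 2 * (2 * r / s) + 3 * ((n + 2) * r) := by ring
    rw [e3]
    linarith
  have hNW : (N : ℝ) = c * m * W := by
    rw [hNR, hc, hW, hy]
    set Z : ℝ := 4 / s + 3 * ((n : ℝ) + 2) with hZ
    have hZ0 : Z ≠ 0 := by positivity
    have e1 : (s / 2) ^ (n + 1) * (2 * ((m : ℝ) * r / s)) ^ (n + 1) = ((m : ℝ) * r) ^ (n + 1) := by
      rw [← mul_pow]
      congr 1
      field_simp
    calc ((m : ℝ) * r) ^ (n + 2) = ((m : ℝ) * r) ^ (n + 1) * (m * r) := pow_succ _ _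
      _ = (s / 2) ^ (n + 1) * (2 * ((m : ℝ) * r / s)) ^ (n + 1) * (m * r) := by rw [e1]
      _ = (s / 2) ^ (n + 1) * (2 * ((m : ℝ) * r / s)) ^ (n + 1) * (m * r) * (Z / Z) := by
          rw [div_self hZ0, mul_one]
      _ = (s / 2) ^ (n + 1) / Z * m * ((2 * (m * r / s)) ^ (n + 1) * (r * Z)) := by ring
  have hkey : (N : ℝ) ^ 2 ≤ W * (P + N) := hclose.trans (mul_le_mul_of_nonneg_right hfac (by positivity))
  have h5 : c * m * N ≤ P + N := by
    have h6 : W * (c * m * N) ≤ W * (P + N) := by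
      refine le_trans (le_of_eq ?_) hkey
      rw [sq]
      nth_rewrite 2 [hNW]
      ring
    exact le_of_mul_le_mul_left h6 hW0
  have h7 : K * N ≤ P := by
    have h8 := mul_le_mul_of_nonneg_right hmK hN0.le
    linarith
  refine h7.trans ?_
  rw [hP]
  apply Nat.cast_le.2
  apply Set.ncard_le_ncard
  · rintro p ⟨h1, h2, h3, h4⟩
    refine ⟨h1, h2, h3, lt_of_lt_of_le h4 ?_⟩
    have e1 : (N : ℝ) ^ (1 / ((n + 2 : ℕ) : ℝ)) = m * r := by
      rw [hNR, one_div, Real.pow_rpow_inv_natCast (by positivity) (by omega)]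
    rw [e1, div_le_div_iff₀ hG0 (by positivity), one_mul]
    rw [hy, div_le_iff₀ hs] at hGy
    linarith
  · refine (((Icc 1 N) ×ˢ (Icc 1 N)).finite_toSet).subset ?_
    rintro p ⟨h1, h2, _⟩
    rw [mem_coe, mem_product, mem_Icc, mem_Icc]
    exact ⟨h1, h2⟩

/-- the growth of the primes -/
theorem prime_growth (j : ℕ) (hj : 1 ≤ j) : (Nat.nth Nat.Prime (j - 1) : ℝ) ≤ 35 * (1 + j * Real.log j) := by
  set p := Nat.nth Nat.Prime (j - 1) with hp
  have hpp : p.Prime := Nat.prime_nth_prime _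
  have hcount : Nat.primeCounting p = j := by
    have h1 : Nat.count Nat.Prime (p + 1) = j := by
      rw [Nat.count_succ, hp, Nat.count_nth_of_infinite Nat.infinite_setOfPred_prime, if_pos hpp]
      omega
    exact h1
  have hp2 : (2 : ℝ) ≤ p := by exact_mod_cast hpp.two_le
  have hp0 : (0 : ℝ) < p := by linarith
  have hlogp : 0 < Real.log p := Real.log_pos (by linarith)
  have hj1 : (1 : ℝ) ≤ j := by exact_mod_cast hj
  have h1 := Chebyshev.pi_ge p
  rw [hcount, div_le_iff₀ hlogp] at h1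
  have h2 : Real.log (p + 1) ≤ 2 * Real.log p := by
    have h3 : Real.log ((p : ℝ) + 1) ≤ Real.log ((p : ℝ) ^ 2) := by
      apply Real.log_le_log (by linarith)
      nlinarith
    rw [Real.log_pow] at h3
    exact_mod_cast h3
  have h4 : (p : ℝ) * Real.log 2 ≤ 3 * j * Real.log p := by nlinarith
  have h5 : (p : ℝ) ≤ 5 * j * Real.log p := by
    have h6 := Real.log_two_gt_d9
    have h7 : 0 ≤ (j : ℝ) * Real.log p := by positivity
    nlinarith
  have hsq : 0 < Real.sqrt p := Real.sqrt_pos.2 hp0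
  have h8 : Real.log p = 2 * Real.log (Real.sqrt p) := by
    rw [Real.log_sqrt hp0.le]
    ring
  have h9 : Real.log (Real.sqrt p) ≤ Real.sqrt p - 1 := Real.log_le_sub_one_of_pos hsq
  have h10 : Real.sqrt p ≤ 10 * j := by
    have h11 : Real.sqrt p * Real.sqrt p ≤ 10 * j * Real.sqrt p := by
      rw [Real.mul_self_sqrt hp0.le]
      have : Real.log p ≤ 2 * Real.sqrt p := by linarith
      have h12 : 5 * (j : ℝ) * Real.log p ≤ 5 * j * (2 * Real.sqrt p) :=
        mul_le_mul_of_nonneg_left this (by positivity)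
      linarith
    exact le_of_mul_le_mul_right h11 hsq
  have h13 : Real.log (Real.sqrt p) ≤ Real.log 10 + Real.log j := by
    rw [← Real.log_mul (by norm_num) (by positivity)]
    exact Real.log_le_log hsq h10
  have h14 : Real.log 10 ≤ 2.5 := by
    rw [Real.log_le_iff_le_exp (by norm_num)]
    have e : Real.exp 2.5 = Real.exp 1 * Real.exp 1 * Real.exp 0.5 := by
      rw [← Real.exp_add, ← Real.exp_add]
      norm_num
    have h15 := Real.exp_one_gt_d9
    have h16 : (1.5 : ℝ) ≤ Real.exp 0.5 := by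
      have := Real.add_one_le_exp (0.5 : ℝ)
      linarith
    rw [e]
    have h17 : (7 : ℝ) ≤ Real.exp 1 * Real.exp 1 := by nlinarith
    nlinarith
  have hlogj : 0 ≤ Real.log j := Real.log_nonneg hj1
  have h18 : Real.log p ≤ 5 + 2 * Real.log j := by linarith
  have h19 : (j : ℝ) - 1 ≤ j * Real.log j := by
    have h20 := Real.one_sub_inv_le_log_of_pos (by linarith : (0 : ℝ) < j)
    have h21 := mul_le_mul_of_nonneg_left h20 (by linarith : (0 : ℝ) ≤ j)
    have e : (j : ℝ) * (1 - (j : ℝ)⁻¹) = j - 1 := by field_simp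
    linarith
  have h22 : 5 * (j : ℝ) * Real.log p ≤ 5 * j * (5 + 2 * Real.log j) :=
    mul_le_mul_of_nonneg_left h18 (by positivity)
  nlinarith

end Pool.Agent.X69.KG
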