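import Mathlib
import Pool.Agent.Helper74.KV.K6

/-!
# One linear form in several variables: infinitely many small values for almost every point

The events `‖a · x‖ ≤ ψ` for pairwise linearly independent integer vectors `a` are pairwise independent, so that
they happen infinitely often if the sum of their measures diverges.
-/

set_option autoImplicit false

namespace Pool.Agent.X69.KG

open MeasureTheory Filter Topology Finset

section cheb

variable {Ω ι : Type*} [MeasurableSpace Ω]

/-- Pairwise independent events: the probability that none of them happens. -/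
theorem none_le (μ : Measure Ω) [IsProbabilityMeasure μ] [DecidableEq ι] (s : Finset ι) (E : ι → Set Ω)
    (hE : ∀ i, MeasurableSet (E i))
    (hind : ∀ i ∈ s, ∀ j ∈ s, i ≠ j → μ.real (E i ∩ E j) = μ.real (E i) * μ.real (E j)) :
    (∑ i ∈ s, μ.real (E i)) * μ.real (⋂ i ∈ s, (E i)ᶜ) ≤ 1 := by
  classical
  set m := ∑ i ∈ s, μ.real (E i) with hm
  have hm0 : 0 ≤ m := sum_nonneg (fun _ _ => measureReal_nonneg)
  set Z := ⋂ i ∈ s, (E i)ᶜ with hZ
  have hZm : MeasurableSet Z := Finset.measurableSet_biInter s (fun i _ => (hE i).compl)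
  rcases hm0.eq_or_lt with h0 | h0
  · rw [← h0, zero_mul]
    exact zero_le_one
  have hI : ∀ A : Set Ω, MeasurableSet A → Integrable (A.indicator (fun _ => (1 : ℝ))) μ := fun A hA =>
    (integrable_const (1 : ℝ)).indicator hA
  have hIv : ∀ A : Set Ω, MeasurableSet A → ∫ x, A.indicator (fun _ => (1 : ℝ)) x ∂μ = μ.real A := by
    intro A hA
    rw [integral_indicator_const _ hA, smul_eq_mul, mul_one]
  have hexp : ∀ x, ((∑ i ∈ s, (E i).indicator (fun _ => (1 : ℝ)) x) - m) ^ 2 =
      (∑ i ∈ s, ∑ j ∈ s, (E i ∩ E j).indicator (fun _ => (1 : ℝ)) x) -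
        2 * m * (∑ i ∈ s, (E i).indicator (fun _ => (1 : ℝ)) x) + m ^ 2 := by
    intro x
    have h1 : (∑ i ∈ s, (E i).indicator (fun _ => (1 : ℝ)) x) ^ 2 =
        ∑ i ∈ s, ∑ j ∈ s, (E i ∩ E j).indicator (fun _ => (1 : ℝ)) x := by
      rw [sq, sum_mul_sum]
      apply sum_congr rfl
      intro i _
      apply sum_congr rfl
      intro j _
      by_cases hi : x ∈ E i <;> by_cases hj : x ∈ E j <;> simp [hi, hj]
    rw [← h1]
    ring
  have hint1 : Integrable (fun x => ∑ i ∈ s, ∑ j ∈ s, (E i ∩ E j).indicator (fun _ => (1 : ℝ)) x) μ :=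
    integrable_finsetSum _ (fun i _ => integrable_finsetSum _ (fun j _ => hI _ ((hE i).inter (hE j))))
  have hint2 : Integrable (fun x => 2 * m * ∑ i ∈ s, (E i).indicator (fun _ => (1 : ℝ)) x) μ :=
    (integrable_finsetSum _ (fun i _ => hI _ (hE i))).const_mul _
  have hv1 : ∫ x, ∑ i ∈ s, ∑ j ∈ s, (E i ∩ E j).indicator (fun _ => (1 : ℝ)) x ∂μ =
      ∑ i ∈ s, ∑ j ∈ s, μ.real (E i ∩ E j) := by
    rw [integral_finsetSum _ (fun i _ => integrable_finsetSum _ (fun j _ => hI _ ((hE i).inter (hE j))))]
    apply sum_congr rfl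
    intro i _
    rw [integral_finsetSum _ (fun j _ => hI _ ((hE i).inter (hE j)))]
    apply sum_congr rfl
    intro j _
    exact hIv _ ((hE i).inter (hE j))
  have hv2 : ∫ x, 2 * m * ∑ i ∈ s, (E i).indicator (fun _ => (1 : ℝ)) x ∂μ = 2 * m * m := by
    rw [integral_const_mul, integral_finsetSum _ (fun i _ => hI _ (hE i))]
    congr 1
    apply sum_congr rfl
    intro i _
    exact hIv _ (hE i)
  have hdbl : ∑ i ∈ s, ∑ j ∈ s, μ.real (E i ∩ E j) ≤ m + m ^ 2 := by
    have h1 : ∀ i ∈ s, ∑ j ∈ s, μ.real (E i ∩ E j) ≤ μ.real (E i) + μ.real (E i) * m := by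
      intro i hi
      have h2 : ∀ j ∈ s, μ.real (E i ∩ E j) ≤ (if i = j then μ.real (E i) else 0) + μ.real (E i) * μ.real (E j) := by
        intro j hj
        by_cases hij : i = j
        · rw [if_pos hij, ← hij, Set.inter_self]
          have : 0 ≤ μ.real (E i) * μ.real (E i) := by positivity
          linarith
        · rw [if_neg hij, zero_add, hind i hi j hj hij]
      refine (sum_le_sum h2).trans ?_
      rw [sum_add_distrib, ← mul_sum, sum_ite_eq, if_pos hi]
    refine (sum_le_sum h1).trans ?_
    rw [sum_add_distrib, ← sum_mul]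
    apply le_of_eq
    ring
  have hv : ∫ x, ((∑ i ∈ s, (E i).indicator (fun _ => (1 : ℝ)) x) - m) ^ 2 ∂μ ≤ m := by
    simp_rw [hexp]
    have e1 := integral_add (hint1.sub hint2) (integrable_const (μ := μ) (m ^ 2))
    have e2 := integral_sub hint1 hint2
    have e3 : ∫ x, (∑ i ∈ s, ∑ j ∈ s, (E i ∩ E j).indicator (fun _ => (1 : ℝ)) x) -
        2 * m * (∑ i ∈ s, (E i).indicator (fun _ => (1 : ℝ)) x) + m ^ 2 ∂μ =
        (∑ i ∈ s, ∑ j ∈ s, μ.real (E i ∩ E j)) - 2 * m * m + m ^ 2 := by
      refine e1.trans ?_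
      rw [integral_const, probReal_univ, one_smul]
      congr 1
      refine e2.trans ?_
      rw [hv1, hv2]
    rw [e3]
    linarith
  have hlow : m ^ 2 * μ.real Z ≤ ∫ x, ((∑ i ∈ s, (E i).indicator (fun _ => (1 : ℝ)) x) - m) ^ 2 ∂μ := by
    have h1 : ∫ x, Z.indicator (fun _ => m ^ 2) x ∂μ = m ^ 2 * μ.real Z := by
      rw [integral_indicator_const _ hZm, smul_eq_mul, mul_comm]
    rw [← h1]
    apply integral_mono ((integrable_const _).indicator hZm)
    · simp_rw [hexp]
      exact (hint1.sub hint2).add (integrable_const _)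
    · intro x
      by_cases hx : x ∈ Z
      · simp only [Set.indicator_of_mem hx]
        have h2 : ∑ i ∈ s, (E i).indicator (fun _ => (1 : ℝ)) x = 0 := by
          apply sum_eq_zero
          intro i hi
          apply Set.indicator_of_notMem
          exact (Set.mem_iInter₂.1 hx) i hi
        rw [h2]
        apply le_of_eq
        ring
      · simp only [Set.indicator_of_notMem hx]
        positivity
  have h3 := hlow.trans hv
  have h4 : m * (m * μ.real Z) ≤ m * 1 := by nlinarith
  exact le_of_mul_le_mul_left h4 h0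

end cheb

variable {d : ℕ}

/-- the linear form -/
noncomputable def L (a : Fin d → ℤ) : UnitAddTorus (Fin d) →+ UnitAddCircle where
  toFun x := ∑ i, a i • x i
  map_zero' := by simp
  map_add' x y := by simp [smul_add, sum_add_distrib]

theorem L_apply (a : Fin d → ℤ) (x : UnitAddTorus (Fin d)) : L a x = ∑ i, a i • x i := rfl

theorem L_cont (a : Fin d → ℤ) : Continuous (L a) := by
  show Continuous (fun x : UnitAddTorus (Fin d) => ∑ i, a i • x i)
  fun_prop

theorem pair_surj (a b : Fin d → ℤ) (i j : Fin d) (h : a i * b j ≠ a j * b i) :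
    Function.Surjective ((L a).prod (L b)) := by
  rintro ⟨u, v⟩
  induction u using QuotientAddGroup.induction_on with
  | H u =>
  induction v using QuotientAddGroup.induction_on with
  | H v =>
  have hij : i ≠ j := by
    rintro rfl
    apply h
    ring
  have hD : ((a i : ℝ) * b j - a j * b i) ≠ 0 := by
    intro h0
    apply h
    have h1 : (a i : ℝ) * b j = a j * b i := by linarith
    exact_mod_cast h1
  set D : ℝ := (a i : ℝ) * b j - a j * b i with hDdef
  set s : ℝ := (u * b j - v * a j) / D with hs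
  set t : ℝ := (a i * v - b i * u) / D with ht
  have key : ∀ c : Fin d → ℤ, L c (Pi.single i (s : UnitAddCircle) + Pi.single j (t : UnitAddCircle)) =
      (((c i : ℝ) * s + c j * t : ℝ) : UnitAddCircle) := by
    intro c
    rw [map_add]
    have h1 : ∀ (l : Fin d) (w : ℝ), L c (Pi.single l (w : UnitAddCircle)) = (((c l : ℝ) * w : ℝ) : UnitAddCircle) := by
      intro l w
      rw [L_apply, sum_eq_single l]
      · rw [Pi.single_eq_same, ← AddCircle.coe_zsmul, zsmul_eq_mul]
      · intro l' _ hl'
        rw [Pi.single_eq_of_ne hl', smul_zero]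
      · intro hl
        exact absurd (mem_univ l) hl
    rw [h1, h1, ← AddCircle.coe_add]
  refine ⟨Pi.single i (s : UnitAddCircle) + Pi.single j (t : UnitAddCircle), ?_⟩
  rw [AddMonoidHom.prod_apply, key, key]
  have e1 : (a i : ℝ) * s + a j * t = u := by
    rw [hs, ht]
    field_simp
    rw [hDdef]
    ring
  have e2 : (b i : ℝ) * s + b j * t = v := by
    rw [hs, ht]
    field_simp
    rw [hDdef]
    ring
  rw [e1, e2]

instance pcirc : IsProbabilityMeasure (volume : Measure UnitAddCircle) :=
  ⟨by rw [AddCircle.measure_univ]; simp⟩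

instance ptor : IsProbabilityMeasure (volume : Measure (UnitAddTorus (Fin d))) :=
  inferInstanceAs (IsProbabilityMeasure (Measure.pi (fun _ : Fin d => (volume : Measure UnitAddCircle))))

theorem pair_mp (a b : Fin d → ℤ) (i j : Fin d) (h : a i * b j ≠ a j * b i) :
    MeasurePreserving ((L a).prod (L b)) (volume : Measure (UnitAddTorus (Fin d)))
      ((volume : Measure UnitAddCircle).prod (volume : Measure UnitAddCircle)) := by
  apply AddMonoidHom.measurePreserving
  · exact (L_cont a).prodMk (L_cont b)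
  · exact pair_surj a b i j h
  · rw [measure_univ, measure_univ]

end Pool.Agent.X69.KG
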