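import Pool.Agent.X69.KG.Ae

/-!
# From the torus to `ℝ ^ d`
-/

set_option autoImplicit false

namespace Pool.Agent.X69.KG

open MeasureTheory Filter Topology Finset

variable {d : ℕ}

/-- the projection -/
noncomputable def prj (α : Fin d → ℝ) : UnitAddTorus (Fin d) := fun i => (α i : UnitAddCircle)

theorem prj_mp (k : Fin d → ℝ) : MeasurePreserving (prj (d := d))
    (volume.restrict (Set.pi Set.univ (fun i => Set.Ioc (k i) (k i + 1)))) volume := by
  have h1 := measurePreserving_pi (fun i => volume.restrict (Set.Ioc (k i) (k i + 1)))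
    (fun _ : Fin d => (volume : Measure UnitAddCircle)) (fun i => AddCircle.measurePreserving_mk 1 (k i))
  have h2 := Measure.restrict_pi_pi (fun _ : Fin d => (volume : Measure ℝ)) (fun i => Set.Ioc (k i) (k i + 1))
  rw [← h2] at h1
  exact h1

theorem ae_real {P : UnitAddTorus (Fin d) → Prop} (h : ∀ᵐ x, P x) : ∀ᵐ α : Fin d → ℝ, P (prj α) := by
  rw [ae_iff] at h ⊢
  have hcov : {α : Fin d → ℝ | ¬ P (prj α)} ⊆ ⋃ k : Fin d → ℤ, (prj ⁻¹' (toMeasurable volume {x | ¬ P x})) ∩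
      Set.pi Set.univ (fun i => Set.Ioc (k i : ℝ) (k i + 1)) := by
    intro α hα
    rw [Set.mem_iUnion]
    refine ⟨fun i => ⌈α i⌉ - 1, subset_toMeasurable volume _ hα, ?_⟩
    intro i _
    have h1 := Int.ceil_lt_add_one (α i)
    have h2 := Int.le_ceil (α i)
    push_cast
    constructor <;> linarith
  refine measure_mono_null hcov (measure_iUnion_null fun k => ?_)
  have h1 := (prj_mp (fun i => (k i : ℝ))).measure_preimage
    (measurableSet_toMeasurable volume {x | ¬ P x}).nullMeasurableSet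
  rw [measure_toMeasurable, h, Measure.restrict_apply] at h1
  · exact h1
  · exact (prj_mp (fun i => (k i : ℝ))).measurable (measurableSet_toMeasurable _ _)

/-- almost every point of `ℝ ^ (n + 2)` -/
theorem ae_pt (n : ℕ) : ∀ᵐ α : Fin (n + 2) → ℝ, ∀ m : ℕ, ∀ K : ℕ,
    ∃ t : (_ : ℕ) × (ℕ × (Fin n → ℕ)), K ≤ t.1 ∧ (t.2.1 < t.1 ∧ Nat.Coprime t.1 t.2.1) ∧ (∀ i, t.2.2 i < t.1) ∧
      ∃ z : ℤ, |∑ i, (vec t i : ℝ) * α i - z| ≤ psi (1 / (m + 4)) n t.1 := by
  rw [ae_all_iff]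
  intro m
  have h1 : (0 : ℝ) < 1 / (m + 4) := by positivity
  have h2 : (1 : ℝ) / (m + 4) ≤ 1 / 4 := by
    apply one_div_le_one_div_of_le (by norm_num)
    have : (0 : ℝ) ≤ m := Nat.cast_nonneg _
    linarith
  filter_upwards [ae_real (ae_torus n (1 / (m + 4)) h1 h2)] with α hα K
  obtain ⟨t, ht1, ht2, ht3, ht4⟩ := hα K
  refine ⟨t, ht1, ht2, ht3, round (∑ i, (vec t i : ℝ) * α i), ?_⟩
  have e : L (vec t) (prj α) = ((∑ i, (vec t i : ℝ) * α i : ℝ) : UnitAddCircle) := by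
    rw [L_apply]
    unfold prj
    rw [show ((∑ i, (vec t i : ℝ) * α i : ℝ) : UnitAddCircle) =
      ∑ i, (((vec t i : ℝ) * α i : ℝ) : UnitAddCircle) from
        map_sum (QuotientAddGroup.mk' (AddSubgroup.zmultiples (1 : ℝ))) _ _]
    apply sum_congr rfl
    intro i _
    rw [← AddCircle.coe_zsmul, zsmul_eq_mul]
  rw [e, UnitAddCircle.norm_eq] at ht4
  exact ht4

end Pool.Agent.X69.KG
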